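import Pool.Agent.Helper52.SM.Goals
import Pool.Agent.Helper78.DT.Av

/-!
# The two decision lists of a thread
-/

namespace Pool.Agent.Helper62.SM

open Pool.Agent.Helper81.CC Pool.Agent.Helper78.DT Pool.Agent.Helper51.ZP Pool.Agent.Helper65.CS
open Pool.Agent.Helper52.SM
open Pool.Agent.Helper78
open scoped Classical

/-- The value of a list with labels, when some term is satisfied. -/
lemma val_map {β : Type} {m : ℕ} (y : Fin m → Bool) (d : β) (B : β → Bool)
    (G : List (List (ℕ × Bool) × β)) (h : ∃ e ∈ G, ∀ p ∈ e.1, PM.coins y p.1 = p.2) :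
    DList.val y (G.map fun e => (e.1, B e.2)) = B (evg d (PM.coins y) G) := by
  induction G with
  | nil => obtain ⟨e, he, _⟩ := h; exact absurd he (List.not_mem_nil)
  | cons e G ih =>
    rw [List.map_cons, DList.val, evg]
    by_cases he : ∀ p ∈ e.1, PM.coins y p.1 = p.2
    · rw [if_pos he, if_pos]
      exact he
    · rw [if_neg he, if_neg]
      · refine ih ?_
        obtain ⟨e', he', hs⟩ := h
        rcases List.mem_cons.1 he' with rfl | he'
        · exact absurd hs he
        · exact ⟨e', he', hs⟩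
      · exact he

/-- **THR.** -/
theorem thr (hsem : SemStmt) (hmem : MemStmt) (hlen : LenStmt) (hclg : ClgStmt)
    (hlgt : LgtStmt) : ThrStmt := by
  intro act c x m T s ε hs hn hε
  set P := Pe act c x m s ε with hP
  set F := pl act c x P T 0 [] [] with hF
  set d : Lab := Sum.inl false with hd
  set G := clg m s F with hG
  have hc := hclg Lab m s F d hs hn
  have hsm := hsem act c x P T 0 [] []
  -- properties of the terms
  have hterm : ∀ e ∈ G, e.1.Nodup ∧ e.1.length ≤ 2 * PM.bd c x ∧
      ∀ p ∈ e.1, p.1 < m ∧ (p.1, !p.2) ∉ e.1 := by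
    intro e he
    obtain ⟨h1, h2, e0, he0, h3, h4⟩ := hc.2.1 e he
    exact ⟨h1, h3.trans (hsm.2.2 (Nat.zero_le _) (Nat.zero_le _) e0 he0), h2⟩
  have hnf : ∀ B : Lab → Bool, NF m (2 * PM.bd c x) (G.map fun e => (e.1, B e.2)) := by
    intro B e he
    obtain ⟨e0, he0, rfl⟩ := List.mem_map.1 he
    exact hterm e0 he0
  -- lengths
  have hlenG : ((G.length : ℕ) : ℝ) ≤ (1 + T * 2 ^ PM.bd c x) * (1 + T / ε) := by
    have h1 : (G.length : ℝ) ≤ (F.length : ℝ) := by exact_mod_cast hc.1
    have h2 := hlen act c x m s ε hε T 0 [] [] (by simp)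
    have h3 : qm act c x m s 0 [] ≤ 1 := pr_le_one _
    have h4 : (T : ℝ) * qm act c x m s 0 [] / ε ≤ T / ε := by
      refine div_le_div_of_nonneg_right ?_ hε.le
      exact mul_le_of_le_one_right (Nat.cast_nonneg _) h3
    refine h1.trans (h2.trans ?_)
    have h5 : (0 : ℝ) ≤ 1 + T * 2 ^ PM.bd c x := by positivity
    exact mul_le_mul_of_nonneg_left (by linarith) h5
  -- some term is satisfied
  have hsat : ∀ y : Fin m → Bool, ∃ e ∈ G, ∀ p ∈ e.1, PM.coins y p.1 = p.2 := fun y =>
    (hc.2.2 y).2 (hsm.1 (ov s (PM.coins y)) (by simp)).2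
  have hev : ∀ y : Fin m → Bool,
      evg d (PM.coins y) G = runP act c x P (ov s (PM.coins y)) T 0 [] := fun y =>
    (hc.2.2 y).1.trans (hsm.1 (ov s (PM.coins y)) (by simp)).1
  refine ⟨G.map fun e => (e.1, Sum.elim id (fun _ => false) e.2),
    G.map fun e => (e.1, Sum.isLeft e.2), hnf _, hnf _, ?_, ?_, ?_, ?_⟩
  · rw [List.length_map]; exact hlenG
  · rw [List.length_map]; exact hlenG
  · intro y hy
    rw [val_map y d _ G (hsat y)] at hy ⊢
    obtain ⟨v, hv⟩ := Sum.isLeft_iff.1 hy
    rw [hv]
    rw [hev y] at hv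
    exact (hsm.2.1 (ov s (PM.coins y)) v hv).symm
  · have h1 : pr (fun y : Fin m → Bool =>
        DList.val y (G.map fun e => (e.1, Sum.isLeft e.2)) = false) ≤
        pr (fun y : Fin m → Bool => Sum.isRight (evg d (PM.coins y) G) = true) := by
      refine pr_mono fun y hy => ?_
      rw [val_map y d _ G (hsat y)] at hy
      rcases h : evg d (PM.coins y) G with v | v
      · rw [h] at hy; exact absurd hy (by simp)
      · rfl
    refine h1.trans ?_
    refine hlgt Lab m (2 * PM.bd c x) G d Sum.isRight ε hterm hε ?_ rfl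
    rintro v hv
    obtain ⟨⟨j, M'⟩, rfl⟩ := Sum.isRight_iff.1 hv
    by_cases hex : ∃ y : Fin m → Bool, evg d (PM.coins y) G = Sum.inr (j, M')
    · obtain ⟨y0, hy0⟩ := hex
      have key : ∀ y : Fin m → Bool, evg d (PM.coins y) G = Sum.inr (j, M') →
          mem act c x (ov s (PM.coins y)) (j + 1) = some M' ∧ P j M' = false := by
        intro y hy
        rw [hev y] at hy
        exact (hmem act c x P (ov s (PM.coins y)) T 0 [] rfl).2 j M' hy
      have h2 : P j M' = false := (key y0 hy0).2
      have h3 : qm act c x m s (j + 1) M' < ε := by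
        rw [hP, Pe, decide_eq_false_iff_not, not_le] at h2
        exact h2
      exact (pr_mono fun y hy => (key y hy).1).trans h3.le
    · have h2 : pr (fun y : Fin m → Bool => evg d (PM.coins y) G = Sum.inr (j, M')) ≤
          pr (fun _ : Fin m → Bool => False) :=
        pr_mono fun y hy => hex ⟨y, hy⟩
      refine h2.trans ?_
      have h3 : pr (fun _ : Fin m → Bool => False) = 0 := by
        simp [pr, av]
      rw [h3]
      exact hε.le

end Pool.Agent.Helper62.SM
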