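import Pool.Agent.Helper9.SX.CTT
import Pool.Agent.Helper61.DT.GAP

/-!
# Search for circuits contains search for decision lists
-/

namespace Pool.Agent.Helper62.SM

open Pool.Agent.Helper81.CC Pool.Agent.Helper78.DT Pool.Agent.Helper9.SX
open Pool.Agent.Helper78.JT (Clause CList Circuit out cnt size lsize Narrow)

/-- The circuit with one decision list. -/
def one (z : ℕ × DList) : Circuit := (z.1, [tr z.2], [false, true])

theorem pt_one : PolyTime one := by
  have h1 : PolyTime fun z : ℕ × DList => z.1 := by fun_prop
  have h2 : PolyTime fun z : ℕ × DList => tr z.2 :=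
    PolyTime.comp (g := tr) (f := fun z : ℕ × DList => z.2) pt_tr (by fun_prop)
  have h3 : PolyTime fun z : ℕ × DList => ([tr z.2] : List CList) := by fun_prop
  have h4 : PolyTime fun _ : ℕ × DList => ([false, true] : List Bool) :=
    PolyTime.const [false, true]
  unfold one
  fun_prop

theorem out_one (n : ℕ) (F : DList) (r : Fin n → Bool) : out (one (n, F)) r = DList.val r F := by
  have h : out (one (n, F)) r =
      [false, true].getD ((if Pool.Agent.Helper78.JT.val r (tr F) = true then 1 else 0) + 2 * 0)
        false := rfl
  rw [h, val_tr]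
  cases DList.val r F <;> rfl

theorem lsize_tr (F : DList) : (F.map fun e => e.1.length + 1).sum ≤ lsize (tr F) := by
  induction F with
  | nil => exact le_rfl
  | cons e F ih =>
    have h1 : lsize (tr (e :: F)) =
        1 + ((e.1.map fun p => [p]).map fun C : Clause => 1 + C.length).sum + lsize (tr F) := rfl
    have h2 : ((e.1.map fun p => [p]).map fun C : Clause => 1 + C.length).sum =
        2 * e.1.length := by
      rw [List.map_map]
      have : ((fun C : Clause => 1 + C.length) ∘ fun p => [p]) = fun _ => 2 := by
        funext p; rfl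
      rw [this, List.map_const', List.sum_replicate, smul_eq_mul, mul_comm]
    rw [h1, h2, List.map_cons, List.sum_cons]
    omega

theorem size_one (n : ℕ) (F : DList) : dsize (n, F) ≤ size (one (n, F)) := by
  have h1 : size (one (n, F)) = n + (1 + lsize (tr F) + 0) + 2 := rfl
  have h2 : dsize (n, F) = n + (F.map fun e => e.1.length + 1).sum := rfl
  have h3 := lsize_tr F
  omega

theorem narrow_one (z : ℕ × DList) : Narrow 1 (one z) := by
  intro f hf e he
  have hf' : f = tr z.2 := List.mem_singleton.1 hf
  subst hf'
  unfold tr at he
  obtain ⟨e', he', rfl⟩ := List.mem_map.1 he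
  have h1 : (e'.1.map fun p => [p]).filter (fun C => decide (1 < C.length)) = [] := by
    rw [List.filter_eq_nil_iff]
    intro C hC
    obtain ⟨p, hp, rfl⟩ := List.mem_map.1 hC
    simp
  simp only [h1, List.length_nil]
  exact Nat.zero_le _

/-- Search for circuits with one decision list contains search for decision lists. -/
theorem lists_of_circuits (c : ℕ) (h : Pool.Agent.Helper52.SX.FindsCircuits c 1 0) :
    Pool.Agent.Helper65.CS.FindsLists c := by
  obtain ⟨f, hf, hfz⟩ := h
  have hf' : PolyTime f := Pool.Agent.Helper61.DT.PT_of_comp' hf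
  refine ⟨fun z => f (one z), (PolyTime.comp hf' pt_one).computable, fun n F hF => ?_⟩
  have hcnt : cnt (one (n, F)) = Nat.card {r : Fin n → Bool // DList.val r F = true} := by
    have e : {r : Fin n → Bool // out (one (n, F)) r = true} ≃
        {r : Fin n → Bool // DList.val r F = true} :=
      Equiv.subtypeEquiv (Equiv.refl _) fun r => by rw [out_one]; rfl
    exact Nat.card_congr e
  obtain ⟨r, hr, hfr⟩ := hfz (one (n, F)) (narrow_one _) (by simp [one]) (by
    refine hF.trans ?_
    rw [hcnt]
    refine Nat.mul_le_mul_right _ (Nat.pow_le_pow_left ?_ c)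
    exact Nat.add_le_add_right (Nat.log_mono_right (size_one n F)) 2)
  exact ⟨r, by rw [← out_one]; exact hr, hfr⟩

end Pool.Agent.Helper62.SM
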